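import Pool.Agent.Lib.MP_a785f2_an.Example

/-! Bounded Hoelder functions and the coefficients of the potential. -/

open Metric Set
open scoped NNReal

namespace Pool.Agent.Lib.MP_a785f2_an.CX

section
variable {X : Type} [PseudoMetricSpace X] {γ : ℝ} {f g : X → ℝ}

/-- Bounded and Hoelder continuous with exponent `γ`. -/
def BH (γ : ℝ) (f : X → ℝ) : Prop :=
  ∃ C : ℝ, 0 ≤ C ∧ (∀ x, |f x| ≤ C) ∧ ∀ x y, |f x - f y| ≤ C * dist x y ^ γ

theorem BH.const (c : ℝ) : BH γ fun _ : X => c :=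
  ⟨|c|, abs_nonneg _, fun _ => le_rfl, fun x y => by
    rw [sub_self, abs_zero]; exact mul_nonneg (abs_nonneg _) (Real.rpow_nonneg dist_nonneg _)⟩

theorem BH.add (hf : BH γ f) (hg : BH γ g) : BH γ fun x => f x + g x := by
  obtain ⟨C, C0, C1, C2⟩ := hf
  obtain ⟨D, D0, D1, D2⟩ := hg
  refine ⟨C + D, by positivity, fun x => (abs_add_le _ _).trans (add_le_add (C1 x) (D1 x)),
    fun x y => ?_⟩
  rw [show f x + g x - (f y + g y) = (f x - f y) + (g x - g y) by ring, add_mul]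
  exact (abs_add_le _ _).trans (add_le_add (C2 x y) (D2 x y))

theorem BH.mul (hf : BH γ f) (hg : BH γ g) : BH γ fun x => f x * g x := by
  obtain ⟨C, C0, C1, C2⟩ := hf
  obtain ⟨D, D0, D1, D2⟩ := hg
  have h0 : 0 ≤ C * D := mul_nonneg C0 D0
  refine ⟨2 * (C * D), by positivity, fun x => ?_, fun x y => ?_⟩
  · rw [abs_mul]
    linarith [mul_le_mul (C1 x) (D1 x) (abs_nonneg _) C0]
  · have h1 : 0 ≤ dist x y ^ γ := Real.rpow_nonneg dist_nonneg _
    rw [show f x * g x - f y * g y = f x * (g x - g y) + (f x - f y) * g y by ring]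
    refine (abs_add_le _ _).trans ?_
    rw [abs_mul, abs_mul]
    have h2 := mul_le_mul (C1 x) (D2 x y) (abs_nonneg _) C0
    have h3 := mul_le_mul (C2 x y) (D1 y) (abs_nonneg _) (mul_nonneg C0 h1)
    linarith

theorem BH.neg (hf : BH γ f) : BH γ fun x => -f x := by
  simpa using (BH.const (-1)).mul hf

theorem BH.sub (hf : BH γ f) (hg : BH γ g) : BH γ fun x => f x - g x := by
  simpa [sub_eq_add_neg] using hf.add hg.neg

theorem BH.sq (hf : BH γ f) : BH γ fun x => f x ^ 2 := by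
  simpa [pow_two] using hf.mul hf

theorem BH.inv (hf : BH γ f) (h1 : ∀ x, 1 ≤ f x) : BH γ fun x => (f x)⁻¹ := by
  obtain ⟨C, C0, -, C2⟩ := hf
  have hp : ∀ x, 0 < f x := fun x => lt_of_lt_of_le one_pos (h1 x)
  refine ⟨C + 1, by positivity, fun x => ?_, fun x y => ?_⟩
  · rw [abs_of_pos (inv_pos.2 (hp x))]
    linarith [inv_le_one_of_one_le₀ (h1 x)]
  · have h2 : 0 ≤ dist x y ^ γ := Real.rpow_nonneg dist_nonneg _
    have h3 : (f x)⁻¹ - (f y)⁻¹ = -(f x - f y) * (f x * f y)⁻¹ := by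
      have := hp x
      have := hp y
      field_simp
      ring
    have h4 : (f x * f y)⁻¹ ≤ 1 := inv_le_one_of_one_le₀ (one_le_mul_of_one_le_of_one_le (h1 x) (h1 y))
    have h5 : 0 < (f x * f y)⁻¹ := inv_pos.2 (mul_pos (hp x) (hp y))
    rw [h3, abs_mul, abs_neg, abs_of_pos h5]
    have h6 := mul_le_mul (C2 x y) h4 h5.le (mul_nonneg C0 h2)
    linarith

theorem min_le_rpow (h0 : 0 ≤ γ) (h1 : γ ≤ 1) {a t : ℝ} (ht : 0 ≤ t) (h2 : a ≤ 1) (h3 : a ≤ t) :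
    a ≤ t ^ γ := by
  rcases le_total t 1 with h | h
  · exact h3.trans (Real.self_le_rpow_of_le_one ht h h1)
  · exact h2.trans (Real.one_le_rpow h h0)

theorem BH.of_lip (h0 : 0 ≤ γ) (h1 : γ ≤ 1) (hb : ∀ x, |f x| ≤ 1)
    (hl : ∀ x y, |f x - f y| ≤ dist x y) : BH γ f := by
  refine ⟨2, by positivity, fun x => (hb x).trans one_le_two, fun x y => ?_⟩
  have h2 : |f x - f y| / 2 ≤ dist x y ^ γ := by
    refine min_le_rpow h0 h1 dist_nonneg ?_ ?_
    · linarith [abs_sub (f x) (f y), hb x, hb y]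
    · linarith [hl x y, abs_nonneg (f x - f y)]
  linarith

theorem abs_rpow_sub (h0 : 0 ≤ γ) (h1 : γ ≤ 1) {a b : ℝ} (ha : 0 ≤ a) (hb : 0 ≤ b) :
    |a ^ γ - b ^ γ| ≤ |a - b| ^ γ := by
  wlog h : b ≤ a generalizing a b
  · rw [abs_sub_comm, abs_sub_comm a]
    exact this hb ha (le_of_not_ge h)
  have h2 := Real.rpow_add_le_add_rpow (sub_nonneg.2 h) hb h0 h1
  rw [sub_add_cancel] at h2
  rw [abs_of_nonneg (sub_nonneg.2 (Real.rpow_le_rpow hb h h0)), abs_of_nonneg (sub_nonneg.2 h)]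
  linarith

theorem BH.holder {γ : ℝ≥0} (hf : BH (γ : ℝ) f) :
    ∃ C : ℝ≥0, HolderWith C γ f ∧ ∀ x, |f x| ≤ C := by
  obtain ⟨C, C0, C1, C2⟩ := hf
  lift C to ℝ≥0 using C0
  refine ⟨C, fun x y => ?_, C1⟩
  rw [edist_dist, edist_dist, ENNReal.ofReal_rpow_of_nonneg dist_nonneg (NNReal.coe_nonneg γ),
    ← ENNReal.ofReal_coe_nnreal, ← ENNReal.ofReal_mul (NNReal.coe_nonneg _)]
  exact ENNReal.ofReal_le_ofReal (C2 x y)

end

variable {n : ℕ} {γ : ℝ}

/-- The last `n` coordinates. -/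
def tl (q : E (n + 2)) : E n := WithLp.toLp 2 fun j => q j.succ.succ

theorem tl_lip (q q' : E (n + 2)) : dist (tl q) (tl q') ≤ dist q q' := by
  rw [EuclideanSpace.dist_eq, EuclideanSpace.dist_eq, Fin.sum_univ_succ, Fin.sum_univ_succ]
  refine Real.sqrt_le_sqrt ?_
  have h1 := sq_nonneg (dist (q 0) (q' 0))
  have h2 := sq_nonneg (dist (q (Fin.succ 0)) (q' (Fin.succ 0)))
  have h3 : ∑ i, dist (tl q i) (tl q' i) ^ 2 =
      ∑ i : Fin n, dist (q i.succ.succ) (q' i.succ.succ) ^ 2 := rfl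
  linarith

/-- The truncated length of the tail. -/
noncomputable def zq (q : E (n + 2)) : ℝ := min ‖tl q‖ 1

theorem zq_nonneg (q : E (n + 2)) : 0 ≤ zq q := le_min (norm_nonneg _) zero_le_one

theorem zq_lip (q q' : E (n + 2)) : |zq q - zq q'| ≤ dist (tl q) (tl q') := by
  refine (abs_min_sub_min_le_max _ _ _ _).trans ?_
  rw [sub_self, abs_zero, dist_eq_norm]
  exact max_le (abs_norm_sub_norm_le _ _) (norm_nonneg _)

theorem bh_zq (h0 : 0 ≤ γ) (h1 : γ ≤ 1) : BH γ (zq : E (n + 2) → ℝ) :=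
  BH.of_lip h0 h1 (fun q => by rw [abs_of_nonneg (zq_nonneg q)]; exact min_le_right _ _)
    fun q q' => (zq_lip q q').trans (tl_lip q q')

theorem zq_rpow_le (h0 : 0 ≤ γ) (q : E (n + 2)) : zq q ^ γ ≤ 1 :=
  Real.rpow_le_one (zq_nonneg q) (min_le_right _ _) h0

theorem zq_rpow_sub (h0 : 0 ≤ γ) (h1 : γ ≤ 1) (q q' : E (n + 2)) :
    |zq q ^ γ - zq q' ^ γ| ≤ dist (tl q) (tl q') ^ γ :=
  (abs_rpow_sub h0 h1 (zq_nonneg q) (zq_nonneg q')).trans
    (Real.rpow_le_rpow (abs_nonneg _) (zq_lip q q') h0)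

theorem bh_yq (h0 : 0 ≤ γ) (h1 : γ ≤ 1) : BH γ fun q : E (n + 2) => zq q ^ γ :=
  ⟨1, zero_le_one, fun q => by
    rw [abs_of_nonneg (Real.rpow_nonneg (zq_nonneg q) _)]; exact zq_rpow_le h0 q,
    fun q q' => by
      rw [one_mul]
      exact (zq_rpow_sub h0 h1 q q').trans (Real.rpow_le_rpow dist_nonneg (tl_lip q q') h0)⟩

/-- Truncation to the interval from `-1` to `1`. -/
noncomputable def cl (x : ℝ) : ℝ := max (min x 1) (-1)

theorem cl_eq {x : ℝ} (h : |x| ≤ 1) : cl x = x := by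
  rw [cl, min_eq_left (abs_le.1 h).2, max_eq_left (abs_le.1 h).1]

theorem bh_cl (h0 : 0 ≤ γ) (h1 : γ ≤ 1) (i : Fin (n + 2)) : BH γ fun q : E (n + 2) => cl (q i) := by
  refine BH.of_lip h0 h1 (fun q => abs_le.2 ⟨le_max_right _ _,
    max_le (min_le_right _ _) (by norm_num)⟩) fun q q' => ?_
  refine (abs_max_sub_max_le_abs _ _ _).trans ((abs_min_sub_min_le_max _ _ _ _).trans ?_)
  rw [sub_self, abs_zero]
  exact max_le (PiLp.dist_apply_le q q' i) dist_nonneg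

theorem abs_unit_le (v : E n) (j : Fin n) : |v j / ‖v‖| ≤ 1 := by
  rw [abs_div, abs_norm]
  exact div_le_one_of_le₀ (abs_coord_le v j) (norm_nonneg _)

theorem unit_sub (v w : E n) (j : Fin n) (hv : 0 < ‖v‖) (h : ‖v‖ ≤ ‖w‖) :
    |v j / ‖v‖ - w j / ‖w‖| ≤ 2 * (dist v w / ‖w‖) := by
  have hw : 0 < ‖w‖ := hv.trans_le h
  have h1 : v j / ‖v‖ - w j / ‖w‖ = (v j / ‖v‖ * (‖w‖ - ‖v‖) + (v - w) j) / ‖w‖ := by
    rw [PiLp.sub_apply]; field_simp; ring
  have h2 : |v j / ‖v‖ * (‖w‖ - ‖v‖)| ≤ ‖v - w‖ := by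
    rw [abs_mul]
    refine (mul_le_of_le_one_left (abs_nonneg _) (abs_unit_le v j)).trans ?_
    rw [norm_sub_rev]
    exact abs_norm_sub_norm_le _ _
  rw [h1, abs_div, abs_of_pos hw, ← mul_div_assoc, dist_eq_norm]
  gcongr
  linarith [abs_add_le (v j / ‖v‖ * (‖w‖ - ‖v‖)) ((v - w) j), abs_coord_le (v - w) j]

theorem bh_th (h0 : 0 < γ) (h1 : γ ≤ 1) (j : Fin n) :
    BH γ fun q : E (n + 2) => zq q ^ γ * (tl q j / ‖tl q‖) := by
  have hy : ∀ q : E (n + 2), 0 ≤ zq q ^ γ := fun q => Real.rpow_nonneg (zq_nonneg q) _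
  refine ⟨3, by positivity, fun q => ?_, fun q q' => ?_⟩
  · rw [abs_mul, abs_of_nonneg (hy q)]
    linarith [mul_le_mul (zq_rpow_le h0.le q) (abs_unit_le (tl q) j) (abs_nonneg _) zero_le_one]
  refine le_trans ?_ (mul_le_mul_of_nonneg_left
    (Real.rpow_le_rpow dist_nonneg (tl_lip q q') h0.le) (by norm_num))
  wlog h : ‖tl q‖ ≤ ‖tl q'‖ generalizing q q'
  · rw [abs_sub_comm, dist_comm]
    exact this q' q (le_of_not_ge h)
  have h2 : |zq q ^ γ * (tl q j / ‖tl q‖ - tl q' j / ‖tl q'‖)| ≤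
      2 * dist (tl q) (tl q') ^ γ := by
    rcases (norm_nonneg (tl q)).eq_or_lt with h3 | h3
    · rw [zq, ← h3, min_eq_left zero_le_one, Real.zero_rpow h0.ne', zero_mul, abs_zero]
      positivity
    have hw : 0 < ‖tl q'‖ := h3.trans_le h
    have h4 : |tl q j / ‖tl q‖ - tl q' j / ‖tl q'‖| / 2 ≤ (dist (tl q) (tl q') / ‖tl q'‖) ^ γ := by
      refine min_le_rpow h0.le h1 (by positivity) ?_ ?_
      · linarith [abs_sub (tl q j / ‖tl q‖) (tl q' j / ‖tl q'‖), abs_unit_le (tl q) j,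
          abs_unit_le (tl q') j]
      · linarith [unit_sub (tl q) (tl q') j h3 h]
    have h5 : zq q ^ γ ≤ ‖tl q'‖ ^ γ :=
      Real.rpow_le_rpow (zq_nonneg q) ((min_le_left _ _).trans h) h0.le
    have h6 : 0 < ‖tl q'‖ ^ γ := Real.rpow_pos_of_pos hw _
    rw [Real.div_rpow dist_nonneg hw.le, le_div_iff₀ h6] at h4
    rw [abs_mul, abs_of_nonneg (hy q)]
    have h7 := mul_le_mul_of_nonneg_right h5 (abs_nonneg (tl q j / ‖tl q‖ - tl q' j / ‖tl q'‖))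
    linarith
  have h3 : |(zq q ^ γ - zq q' ^ γ) * (tl q' j / ‖tl q'‖)| ≤ dist (tl q) (tl q') ^ γ := by
    rw [abs_mul]
    exact (mul_le_of_le_one_right (abs_nonneg _) (abs_unit_le _ j)).trans
      (zq_rpow_sub h0.le h1 q q')
  rw [show zq q ^ γ * (tl q j / ‖tl q‖) - zq q' ^ γ * (tl q' j / ‖tl q'‖) =
    zq q ^ γ * (tl q j / ‖tl q‖ - tl q' j / ‖tl q'‖) +
      (zq q ^ γ - zq q' ^ γ) * (tl q' j / ‖tl q'‖) by ring]
  linarith [abs_add_le (zq q ^ γ * (tl q j / ‖tl q‖ - tl q' j / ‖tl q'‖))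
    ((zq q ^ γ - zq q' ^ γ) * (tl q' j / ‖tl q'‖))]

/-- The scalar coefficient functions, in the variables `z` and `y = z ^ γ`. -/
noncomputable def Qf (N μ z y : ℝ) : ℝ := 1 + (N - 1) * (z * y) + μ ^ 2 * (z * y) ^ 2 * z ^ 2

noncomputable def Mf (N β μ z y : ℝ) : ℝ :=
  (β + (N - 1) * μ * (z * y) + μ ^ 2 * (1 + μ) * (z * y) ^ 2 * z ^ 2) * (Qf N μ z y)⁻¹

noncomputable def Af (N β μ z y : ℝ) : ℝ :=
  N - 1 - μ * (z * y) * z ^ 2 * (μ + 1 + (N - 2) * Mf N β μ z y)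

noncomputable def df (N β μ z y : ℝ) : ℝ :=
  (μ * (z * y) * Af N β μ z y - β - (N - 2) * Mf N β μ z y) * (N - 1)⁻¹

theorem one_le_Qf {N μ z y : ℝ} (hN : 1 ≤ N) (hz : 0 ≤ z) (hy : 0 ≤ y) : 1 ≤ Qf N μ z y := by
  have h : 0 ≤ N - 1 := sub_nonneg.2 hN
  have h1 : 0 ≤ (N - 1) * (z * y) := by positivity
  have h2 : 0 ≤ μ ^ 2 * (z * y) ^ 2 * z ^ 2 := by positivity
  unfold Qf
  linarith

/-- The tangent field of the circle in the first two coordinates. -/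
noncomputable def Tq (q : E (n + 2)) : Fin (n + 2) → ℝ :=
  Fin.cons (-cl (q 1)) (Fin.cons (cl (q 0)) fun _ => 0)

/-- The transversal force. -/
noncomputable def Cq (γ β μ : ℝ) (q : E (n + 2)) : Fin (n + 2) → ℝ :=
  Fin.cons 0 (Fin.cons 0 fun j =>
    Af n β μ (zq q) (zq q ^ γ) * (zq q ^ γ * (tl q j / ‖tl q‖)) +
      μ * df n β μ (zq q) (zq q ^ γ) * (zq q * zq q ^ γ) * cl (q j.succ.succ))

/-- The indicator of the last `n` coordinates. -/
def ch (n : ℕ) : Fin (n + 2) → ℝ := Fin.cons 0 (Fin.cons 0 fun _ => 1)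

noncomputable def Wq (γ β μ : ℝ) (q : E (n + 2)) (l i : Fin (n + 2)) : ℝ :=
  Cq γ β μ q i * Tq q l + df n β μ (zq q) (zq q ^ γ) * (ch n i * kd i l)

/-- The coefficients of the potential. -/
noncomputable def aa (γ β μ : ℝ) (l i j : Fin (n + 2)) (q : E (n + 2)) : ℝ :=
  Tq q l * (kd 0 i * kd 1 j - kd 1 i * kd 0 j) + Wq γ β μ q l i * Tq q j - Tq q i * Wq γ β μ q l j

theorem aa_anti (γ β μ : ℝ) (l i j : Fin (n + 2)) (q : E (n + 2)) :
    aa γ β μ l j i q = -aa γ β μ l i j q := by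
  unfold aa; ring

theorem bh_aa (hn : 1 ≤ n) (h0 : 0 < γ) (h1 : γ ≤ 1) (β μ : ℝ) (l i j : Fin (n + 2)) :
    BH γ (aa γ β μ l i j) := by
  have hz := bh_zq (n := n) h0.le h1
  have hy := bh_yq (n := n) h0.le h1
  have hs := hz.mul hy
  have c := fun c : ℝ => BH.const (γ := γ) (X := E (n + 2)) c
  have hQ : BH γ fun q : E (n + 2) => Qf n μ (zq q) (zq q ^ γ) :=
    ((c 1).add ((c _).mul hs)).add (((c _).mul hs.sq).mul hz.sq)
  have hM : BH γ fun q : E (n + 2) => Mf n β μ (zq q) (zq q ^ γ) :=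
    (((c β).add ((c _).mul hs)).add (((c _).mul hs.sq).mul hz.sq)).mul
      (hQ.inv fun q => one_le_Qf (by exact_mod_cast hn) (zq_nonneg q)
        (Real.rpow_nonneg (zq_nonneg q) _))
  have hA : BH γ fun q : E (n + 2) => Af n β μ (zq q) (zq q ^ γ) :=
    (c _).sub ((((c μ).mul hs).mul hz.sq).mul ((c _).add ((c _).mul hM)))
  have hd : BH γ fun q : E (n + 2) => df n β μ (zq q) (zq q ^ γ) :=
    (((((c μ).mul hs).mul hA).sub (c β)).sub ((c _).mul hM)).mul (c _)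
  have hT : ∀ k, BH γ fun q : E (n + 2) => Tq q k := fun k => by
    refine Fin.cases ?_ (fun k => Fin.cases ?_ (fun k => ?_) k) k
    · exact (bh_cl h0.le h1 1).neg
    · exact bh_cl h0.le h1 0
    · exact c 0
  have hC : ∀ k, BH γ fun q : E (n + 2) => Cq γ β μ q k := fun k => by
    refine Fin.cases ?_ (fun k => Fin.cases ?_ (fun k => ?_) k) k
    · exact c 0
    · exact c 0
    · exact (hA.mul (bh_th h0 h1 k)).add ((((c μ).mul hd).mul hs).mul (bh_cl h0.le h1 _))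
  have hW : ∀ k, BH γ fun q : E (n + 2) => Wq γ β μ q l k := fun k =>
    ((hC k).mul (hT l)).add (hd.mul (c _))
  exact (((hT l).mul (c _)).add ((hW i).mul (hT j))).sub ((hT i).mul (hW j))

/-- The value of the one-form on a vector. -/
theorem aa_row (γ β μ : ℝ) (q : E (n + 2)) (ξ : Fin (n + 2) → ℝ) (i j : Fin (n + 2)) {τ : ℝ}
    (hτ : ∑ l, Tq q l * ξ l = τ) :
    ∑ l, aa γ β μ l i j q * ξ l = τ * (kd 0 i * kd 1 j - kd 1 i * kd 0 j) +
      (Cq γ β μ q i * τ + df n β μ (zq q) (zq q ^ γ) * (ch n i * ξ i)) * Tq q j -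
      Tq q i * (Cq γ β μ q j * τ + df n β μ (zq q) (zq q ^ γ) * (ch n j * ξ j)) := by
  have hW : ∀ k, ∑ l, Wq γ β μ q l k * ξ l =
      Cq γ β μ q k * τ + df n β μ (zq q) (zq q ^ γ) * (ch n k * ξ k) := fun k => by
    have e : ∀ l, Wq γ β μ q l k * ξ l = Cq γ β μ q k * (Tq q l * ξ l) +
        df n β μ (zq q) (zq q ^ γ) * ch n k * (kd k l * ξ l) := fun l => by unfold Wq; ring
    simp only [e, Finset.sum_add_distrib, ← Finset.mul_sum, hτ, sum_kd_mul]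
    ring
  have e : ∀ l, aa γ β μ l i j q * ξ l = Tq q l * ξ l * (kd 0 i * kd 1 j - kd 1 i * kd 0 j) +
      Wq γ β μ q l i * ξ l * Tq q j - Tq q i * (Wq γ β μ q l j * ξ l) := fun l => by
    unfold aa; ring
  simp only [e, Finset.sum_add_distrib, Finset.sum_sub_distrib, ← Finset.mul_sum,
    ← Finset.sum_mul, hτ, hW]

end Pool.Agent.Lib.MP_a785f2_an.CX
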