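import Pool.Agent.Lib.MP_a785f2_an.CX.Hol
import Pool.Agent.Lib.MP_a785f2_an.CX3.Ex

/-! The potential of the example is pulled back from the target. -/

open Metric Set

namespace Pool.Agent.Lib.MP_a785f2_an.CX

open CX3 (pw tt Ft At bt Qt Par)

variable {n : ℕ} {γ t : ℝ}

/-- The exponent of the radial speed. -/
noncomputable def be (γ : ℝ) : ℝ := (1 - γ) / (3 + γ)

/-- The exponent of the transversal size. -/
noncomputable def mu (γ : ℝ) : ℝ := 2 / (3 + γ)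

theorem lt_one_of (h1 : γ < ((n : ℝ) - 3) / (n + 1)) : γ < 1 := by
  have h : (0 : ℝ) < n + 1 := by positivity
  refine h1.trans ?_
  rw [div_lt_one h]
  linarith

theorem par (h0 : 0 ≤ γ) (h1 : γ < ((n : ℝ) - 3) / (n + 1)) : Par n (be γ) (mu γ) := by
  have h : (0 : ℝ) < n + 1 := by positivity
  have h2 := lt_one_of h1
  have h3 : 0 < 3 + γ := by linarith
  rw [lt_div_iff₀ h] at h1
  refine ⟨?_, div_pos (by linarith) h3, ?_, ?_, ?_⟩
  · have : (3 : ℝ) ≤ n := by nlinarith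
    exact_mod_cast this
  · unfold be mu
    rw [← mul_div_assoc]
    exact div_le_div_of_nonneg_right (by linarith) h3.le
  · unfold mu
    rw [div_le_one h3]
    linarith
  · unfold be
    rw [← mul_div_assoc, lt_div_iff₀ h3]
    linarith

theorem pw_rpow (ht : 0 < t) (μ γ : ℝ) : pw μ t ^ γ = pw (μ * γ) t := by
  unfold pw
  rw [← Real.rpow_mul ht.le, neg_mul]

theorem rel1 (h0 : 0 ≤ γ) (ht : 0 < t) :
    pw (mu γ) t = pw (mu γ) t ^ γ * pw (be γ) t ^ 2 := by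
  have h3 : 0 < 3 + γ := by linarith
  rw [pw_rpow ht, CX3.pw_pow _ ht, ← CX3.pw_add _ _ ht]
  congr 1
  unfold mu be
  push_cast
  field_simp
  ring

theorem rel2 (h0 : 0 ≤ γ) (ht : 0 < t) :
    t = 1 / ((pw (mu γ) t ^ γ) ^ 2 * pw (be γ) t ^ 3) := by
  have h3 : 0 < 3 + γ := by linarith
  have h : (2 : ℕ) * (mu γ * γ) + (3 : ℕ) * be γ = 1 := by
    unfold mu be
    push_cast
    field_simp
    ring
  rw [pw_rpow ht, CX3.pw_pow _ ht, CX3.pw_pow _ ht, ← CX3.pw_add _ _ ht, h, CX3.pw_one ht,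
    one_div_one_div]

section
variable {β μ y : ℝ}

theorem mt_eq (hn : 2 ≤ n) (ht : 0 < t) (hy : 0 < y) (r1 : pw μ t = y * pw β t ^ 2)
    (r2 : t = 1 / (y ^ 2 * pw β t ^ 3)) : CX3.mt n β μ t = Mf n β μ (pw μ t) y := by
  have hp := CX3.pw_pos β ht
  have hz := CX3.pw_pos μ ht
  have hQ : Qt n β μ t = pw β t ^ 2 * Qf n μ (pw μ t) y := by
    unfold Qt Qf
    generalize pw β t = p at *
    generalize pw μ t = z at *
    subst r1 r2
    field_simp
  have h1 := one_le_Qf (N := n) (μ := μ) (by exact_mod_cast le_trans one_le_two hn) hz.le hy.le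
  unfold CX3.mt Mf
  rw [hQ]
  generalize Qf n μ (pw μ t) y = Q at *
  generalize pw β t = p at *
  generalize pw μ t = z at *
  subst r1 r2
  have : Q ≠ 0 := by linarith
  field_simp
  ring

theorem Ft_eq (hn : 2 ≤ n) (ht : 0 < t) (hy : 0 < y) (r1 : pw μ t = y * pw β t ^ 2)
    (r2 : t = 1 / (y ^ 2 * pw β t ^ 3)) : Ft n β μ t = Af n β μ (pw μ t) y := by
  have hp := CX3.pw_pos β ht
  unfold Ft Af
  rw [mt_eq hn ht hy r1 r2]
  generalize Mf n β μ (pw μ t) y = M at *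
  generalize pw β t = p at *
  generalize pw μ t = z at *
  subst r1 r2
  field_simp
  ring

theorem bt_eq (hn : 2 ≤ n) (ht : 0 < t) (hy : 0 < y) (r1 : pw μ t = y * pw β t ^ 2)
    (r2 : t = 1 / (y ^ 2 * pw β t ^ 3)) :
    bt n β μ t = -(df n β μ (pw μ t) y * pw μ t) := by
  have hp := CX3.pw_pos β ht
  have h1 := CX3.n1_pos hn
  unfold bt At df
  rw [Ft_eq hn ht hy r1 r2, mt_eq hn ht hy r1 r2]
  generalize Af n β μ (pw μ t) y = A at *
  generalize Mf n β μ (pw μ t) y = M at *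
  generalize pw β t = p at *
  generalize pw μ t = z at *
  subst r1 r2
  field_simp
  ring

end

/-- The value of the one-form at a point of the image of the example. -/
theorem aa_eval (hn : 2 ≤ n) (h0 : 0 ≤ γ) {x : E n} (hx : x ∈ U n) (α : Fin n) {c s : ℝ}
    (hcs : c ^ 2 + s ^ 2 = 1) {q : E (n + 2)} {ξ : Fin (n + 2) → ℝ} (q0 : q 0 = c) (q1 : q 1 = s)
    (q2 : ∀ j : Fin n, q j.succ.succ = CX3.H (mu γ) ‖x‖ * x j)
    (x0 : ξ 0 = -s * (CX3.P (be γ) ‖x‖ * x α)) (x1 : ξ 1 = c * (CX3.P (be γ) ‖x‖ * x α))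
    (x2 : ∀ j : Fin n, ξ j.succ.succ = CX3.GG n (be γ) (mu γ) j.succ α x) (i j : Fin (n + 2)) :
    ∑ l, aa γ (be γ) (mu γ) l i j q * ξ l =
      CX3.P (be γ) ‖x‖ * x α * (kd 0 i * kd 1 j - kd 1 i * kd 0 j) +
        (Fin.cons (-s) (Fin.cons c fun _ => 0) : Fin (n + 2) → ℝ) i *
          (Fin.cons 0 (Fin.cons 0 fun k => CX3.cc n (be γ) (mu γ) α k x) : Fin (n + 2) → ℝ) j -
        (Fin.cons 0 (Fin.cons 0 fun k => CX3.cc n (be γ) (mu γ) α k x) : Fin (n + 2) → ℝ) i *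
          (Fin.cons (-s) (Fin.cons c fun _ => 0) : Fin (n + 2) → ℝ) j := by
  have hr := U_pos hx
  have ht1 := CX3.one_le_tt hr hx.2.le
  have ht := CX3.tt_pos hr hx.2.le
  have hz := CX3.pw_pos (mu γ) ht
  have hp := CX3.pw_pos (be γ) ht
  have hz1 : pw (mu γ) (tt ‖x‖) ≤ 1 := CX3.pw_le_one ht1 (by unfold mu; positivity)
  have hy : 0 < pw (mu γ) (tt ‖x‖) ^ γ := Real.rpow_pos_of_pos hz _
  have hT : Tq q = Fin.cons (-s) (Fin.cons c fun _ => 0) := by
    rw [Tq, q0, q1, cl_eq (abs_le.2 ⟨by nlinarith, by nlinarith⟩),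
      cl_eq (abs_le.2 ⟨by nlinarith, by nlinarith⟩)]
  have htl : tl q = CX3.H (mu γ) ‖x‖ • x := by
    ext k
    exact q2 k
  have hnt : ‖tl q‖ = pw (mu γ) (tt ‖x‖) := by
    rw [htl, norm_smul, CX3.H, Real.norm_of_nonneg (by positivity)]
    field_simp
  have hzq : zq q = pw (mu γ) (tt ‖x‖) := by rw [zq, hnt, min_eq_left hz1]
  have hτ : ∑ l, Tq q l * ξ l = CX3.P (be γ) ‖x‖ * x α := by
    rw [hT, Fin.sum_univ_succ, Fin.sum_univ_succ]
    simp only [Fin.cons_zero, Fin.cons_succ, zero_mul, Finset.sum_const_zero, add_zero]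
    rw [Fin.succ_zero_eq_one, x0, x1]
    linear_combination (CX3.P (be γ) ‖x‖ * x α) * hcs
  have hw : ∀ k, Cq γ (be γ) (mu γ) q k * (CX3.P (be γ) ‖x‖ * x α) +
      df n (be γ) (mu γ) (zq q) (zq q ^ γ) * (ch n k * ξ k) =
      -(Fin.cons 0 (Fin.cons 0 fun k => CX3.cc n (be γ) (mu γ) α k x) : Fin (n + 2) → ℝ) k := by
    intro k
    refine Fin.cases ?_ (fun k => Fin.cases ?_ (fun k => ?_) k) k
    · simp only [Cq, ch, Fin.cons_zero, zero_mul, mul_zero, add_zero, neg_zero]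
    · simp only [Cq, ch, Fin.cons_zero, Fin.cons_succ, zero_mul, mul_zero, add_zero, neg_zero]
    have hc : cl (q k.succ.succ) = q k.succ.succ :=
      cl_eq ((abs_coord_le (tl q) k).trans (hnt.trans_le hz1))
    have hk : tl q k = CX3.H (mu γ) ‖x‖ * x k := q2 k
    have r1 := rel1 h0 ht
    have r2 := rel2 h0 ht
    simp only [Cq, ch, Fin.cons_succ, hc]
    simp only [Fin.cons_succ, hk, hnt, hzq, q2, x2, CX3.GG, CX3.cc, CX3.ca, CX3.cb,
      CX3.H, CX3.K, CX3.P, At, Ft_eq hn ht hy r1 r2, bt_eq hn ht hy r1 r2]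
    generalize pw (mu γ) (tt ‖x‖) ^ γ = y at *
    generalize Af n (be γ) (mu γ) (pw (mu γ) (tt ‖x‖)) y = A at *
    generalize df n (be γ) (mu γ) (pw (mu γ) (tt ‖x‖)) y = d at *
    generalize pw (be γ) (tt ‖x‖) = p at *
    generalize pw (mu γ) (tt ‖x‖) = z at *
    generalize tt ‖x‖ = t at *
    subst r1 r2
    field_simp
    ring
  rw [aa_row _ _ _ q ξ i j hτ, hw, hw, hT]
  ring

end Pool.Agent.Lib.MP_a785f2_an.CX
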