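import Pool.Agent.Lib.MP_a785f2_an.CX.Id
import Pool.Agent.Lib.MP_a785f2_an.CX3.Wrap
import Pool.Agent.Lib.MP_a785f2_an.NH.Stmt

/-! The bounded example has a potential pulled back through a Hoelder one-form. -/

open Metric Set
open scoped NNReal

namespace Pool.Agent.Lib.MP_a785f2_an.CX

open CX3 (Par uB GB OmB co si)

variable {n : ℕ}

theorem kd_self {m : ℕ} (i : Fin m) : kd i i = 1 := if_pos rfl

theorem kd_ne {m : ℕ} {i j : Fin m} (h : i ≠ j) : kd i j = 0 := if_neg h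

theorem OmB_eq {γ : ℝ} (hn : 2 ≤ n) (h0 : 0 ≤ γ) {x : E n} (hx : x ∈ U n) (α : Fin n)
    (i j : Fin (n + 2)) :
    OmB n (be γ) (mu γ) α i j x =
      ∑ l, aa γ (be γ) (mu γ) l i j (pt (uB n (be γ) (mu γ)) x) * GB n (be γ) (mu γ) l α x := by
  rw [aa_eval hn h0 hx α (c := co (be γ) x) (s := si (be γ) x)
    (by linarith [CX3.co_sq (β := be γ) x]) (q := pt (uB n (be γ) (mu γ)) x)
    (ξ := fun l => GB n (be γ) (mu γ) l α x) rfl rfl (fun _ => rfl) rfl rfl (fun _ => rfl)]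
  have e1 : (1 : Fin (n + 2)) = Fin.succ 0 := rfl
  have k1 : kd (0 : Fin (n + 2)) (Fin.succ 0) = 0 := kd_ne (Fin.succ_ne_zero _).symm
  have k2 : kd (Fin.succ 0) (0 : Fin (n + 2)) = 0 := kd_ne (Fin.succ_ne_zero _)
  have k3 : ∀ k : Fin n, kd (0 : Fin (n + 2)) k.succ.succ = 0 := fun k =>
    kd_ne (Fin.succ_ne_zero _).symm
  have k4 : ∀ k : Fin n, kd (Fin.succ 0 : Fin (n + 2)) k.succ.succ = 0 := fun k =>
    kd_ne fun h => (Fin.succ_ne_zero k) (Fin.succ_injective _ h).symm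
  rw [e1]
  refine Fin.cases ?_ (fun i => Fin.cases ?_ (fun i => ?_) i) i <;>
    refine Fin.cases ?_ (fun j => Fin.cases ?_ (fun j => ?_) j) j <;>
    simp only [OmB, CX3.GG, Fin.cons_zero, Fin.cons_succ, kd_self, k1, k2, k3, k4] <;>
    ring

/-- For every exponent `γ` below `(n - 3) / (n + 1)` the potential of the bounded example is
`a(u) ∇u` with `a` antisymmetric, bounded and `γ`-Hoelder on the whole target space. -/
theorem pulled {γ : ℝ≥0} (h0 : 0 < γ) (h1 : (γ : ℝ) < ((n : ℝ) - 3) / (n + 1)) :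
    Par n (be γ) (mu γ) ∧
      ∃ a : Fin (n + 2) → Fin (n + 2) → Fin (n + 2) → E (n + 2) → ℝ,
        (∀ l i j, ∃ C : ℝ≥0, HolderWith C γ (a l i j) ∧ ∀ q, |a l i j q| ≤ C) ∧
        (∀ l i j q, a l j i q = -a l i j q) ∧
        ∀ x ∈ U n, ∀ α i j, OmB n (be γ) (mu γ) α i j x =
          ∑ l, a l i j (pt (uB n (be γ) (mu γ)) x) * GB n (be γ) (mu γ) l α x := by
  have p := par γ.coe_nonneg h1
  have hn := p.n2
  exact ⟨p, aa γ (be γ) (mu γ),
    fun l i j => (bh_aa (by omega) (by exact_mod_cast h0) (lt_one_of h1).le _ _ l i j).holder,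
    fun l i j q => aa_anti _ _ _ l i j q,
    fun x hx α i j => OmB_eq hn γ.coe_nonneg hx α i j⟩

end Pool.Agent.Lib.MP_a785f2_an.CX
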